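import Mathlib
import Pool.Agent.MP_65ee2d_an.Main

set_option autoImplicit false

open Set MeasureTheory TopologicalSpace
open scoped ENNReal

namespace Pool.Agent.Results.MP_65ee2d_an.AnalyticDimensions

/-- For every non-empty compact metric space `K` and every analytic set `A ⊆ [0, dim_H K]` there is
a compact family of non-empty compact subsets of `K` (Hausdorff metric) whose Hausdorff dimensions
are exactly the elements of `A`. -/
theorem result {K : Type*} [MetricSpace K] [CompactSpace K] [Nonempty K] (A : Set ℝ≥0∞)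
    (hA : AnalyticSet A) (hAK : A ⊆ Icc 0 (dimH (univ : Set K))) :
    ∃ 𝒞 : Set (NonemptyCompacts K), IsCompact 𝒞 ∧
      {d : ℝ≥0∞ | ∃ C ∈ 𝒞, dimH (C : Set K) = d} = A := by
  obtain ⟨𝒞, h1, h2⟩ := Pool.Agent.MP_65ee2d_an.main A hA (fun a ha => (hAK ha).2)
  exact ⟨𝒞, h1, h2⟩

end Pool.Agent.Results.MP_65ee2d_an.AnalyticDimensions
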